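import Mathlib

/-!
# The variable Szeged and Wiener indices can agree for two exponents

Take a cocktail party graph on `2 p` vertices, join all its vertices to the first vertex of a path
with `L + 1` vertices.  For `p = 2 ^ 26` and `L = 2 ^ 17` the function `h = Sz - W` satisfies
`h 0 < 0`, `h (1/2) > 0` and `h (3/4) < 0`, so it has at least two zeros.
-/

set_option autoImplicit false

namespace Pool.Agent.Results.MP_dd6dde_co.TwoZeros

open Finset

variable {V : Type} [Fintype V]

/-- `n_u(e)` for `e = uv`: the number of vertices closer to `u` than to `v`. -/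
noncomputable def closer (G : SimpleGraph V) (u v : V) : ℕ :=
  (univ.filter fun w => G.dist w u < G.dist w v).card

/-- The term of the Szeged index at an edge `uv`: `(n_u n_v) ^ α`. -/
noncomputable def szTerm (G : SimpleGraph V) (α : ℝ) : Sym2 V → ℝ :=
  Sym2.lift ⟨fun u v => ((closer G u v : ℝ) * closer G v u) ^ α, fun u v => by
    change ((closer G u v : ℝ) * closer G v u) ^ α = ((closer G v u : ℝ) * closer G u v) ^ α
    rw [mul_comm]⟩

/-- The term of the Wiener index at a pair `{x, y}`: `d(x, y) ^ α`. -/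
noncomputable def wTerm (G : SimpleGraph V) (α : ℝ) : Sym2 V → ℝ :=
  Sym2.lift ⟨fun x y => (G.dist x y : ℝ) ^ α, fun x y => by
    change (G.dist x y : ℝ) ^ α = (G.dist y x : ℝ) ^ α
    rw [SimpleGraph.dist_comm]⟩

open Classical in
/-- The variable Szeged index. -/
noncomputable def Sz (G : SimpleGraph V) (α : ℝ) : ℝ := ∑ e ∈ G.edgeFinset, szTerm G α e

open Classical in
/-- The variable Wiener index: the sum over all pairs of distinct vertices (the edges of the
complete graph). -/
noncomputable def W (G : SimpleGraph V) (α : ℝ) : ℝ :=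
  ∑ e ∈ (⊤ : SimpleGraph V).edgeFinset, wTerm G α e

/-! ### General lemmas -/

open Classical in
lemma two_mul_sum_edge (G : SimpleGraph V) (f : Sym2 V → ℝ) :
    2 * ∑ e ∈ G.edgeFinset, f e = ∑ u, ∑ v, if G.Adj u v then f s(u, v) else 0 := by
  have h1 : ∑ d : G.Dart, f d.edge = ∑ u, ∑ v, if G.Adj u v then f s(u, v) else 0 := by
    rw [← Fintype.sum_prod_type' (fun u v => if G.Adj u v then f s(u, v) else 0),
      ← Finset.sum_filter]
    refine Finset.sum_bij (fun d _ => d.toProd) ?_ ?_ ?_ ?_
    · intro d _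
      simp [d.adj]
    · intro a _ b _ h
      exact SimpleGraph.Dart.ext _ _ h
    · intro b hb
      simp only [mem_filter, mem_univ, true_and] at hb
      exact ⟨⟨b, hb⟩, mem_univ _, rfl⟩
    · intro d _
      rfl
  rw [← h1, ← Finset.sum_fiberwise_of_maps_to (s := univ) (t := G.edgeFinset)
    (g := fun d : G.Dart => d.edge) (fun d _ => by simp), mul_sum]
  apply Finset.sum_congr rfl
  intro e he
  rw [SimpleGraph.mem_edgeFinset] at he
  have h2 := G.dart_edge_fiber_card e he
  have h3 : ∑ d ∈ univ.filter (fun d : G.Dart => d.edge = e), f d.edge =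
      ∑ d ∈ univ.filter (fun d : G.Dart => d.edge = e), f e := by
    apply Finset.sum_congr rfl
    intro d hd
    rw [(mem_filter.1 hd).2]
  rw [h3, Finset.sum_const, h2]
  simp

open Classical in
lemma two_mul_sum_edge' (G : SimpleGraph V) [Fintype G.edgeSet] (f : Sym2 V → ℝ) :
    2 * ∑ e ∈ G.edgeFinset, f e = ∑ u, ∑ v, if G.Adj u v then f s(u, v) else 0 := by
  rw [← two_mul_sum_edge]
  congr 1
  apply Finset.sum_congr _ (fun _ _ => rfl)
  ext e
  simp only [SimpleGraph.edgeFinset, Set.mem_toFinset]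

lemma two_mul_Sz (G : SimpleGraph V) [DecidableRel G.Adj] (α : ℝ) :
    2 * Sz G α = ∑ u, ∑ v, if G.Adj u v then ((closer G u v : ℝ) * closer G v u) ^ α else 0 := by
  classical
  unfold Sz
  rw [two_mul_sum_edge']
  apply Finset.sum_congr rfl
  intro u _
  apply Finset.sum_congr rfl
  intro v _
  by_cases h : G.Adj u v
  · simp [h, szTerm]
  · simp [h]

lemma two_mul_W [DecidableEq V] (G : SimpleGraph V) (α : ℝ) :
    2 * W G α = ∑ u, ∑ v, if u ≠ v then (G.dist u v : ℝ) ^ α else 0 := by
  classical
  unfold W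
  rw [two_mul_sum_edge']
  apply Finset.sum_congr rfl
  intro u _
  apply Finset.sum_congr rfl
  intro v _
  by_cases h : u = v
  · simp [h]
  · simp [h, wTerm]

lemma dist_eq_of {V : Type} (G : SimpleGraph V) (D : V → V → ℕ) (h0 : ∀ x y, D x y = 0 ↔ x = y)
    (h1 : ∀ x y y', G.Adj y y' → D x y' ≤ D x y + 1)
    (h2 : ∀ x y, x ≠ y → ∃ y', G.Adj y' y ∧ D x y' + 1 = D x y) :
    ∀ x y, G.Reachable x y ∧ G.dist x y = D x y := by
  intro x
  have hw : ∀ k y, D x y = k → ∃ p : G.Walk x y, p.length = k := by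
    intro k
    induction k with
    | zero =>
      intro y hy
      rw [h0] at hy
      subst hy
      exact ⟨SimpleGraph.Walk.nil, rfl⟩
    | succ k ih =>
      intro y hy
      have hne : x ≠ y := fun h => by rw [(h0 x y).2 h] at hy; omega
      obtain ⟨y', ha, hb⟩ := h2 x y hne
      obtain ⟨p, hp⟩ := ih y' (by omega)
      exact ⟨p.concat ha, by rw [SimpleGraph.Walk.length_concat, hp]⟩
  have hl : ∀ {a b : V} (p : G.Walk a b), D x b ≤ D x a + p.length := by
    intro a b p
    induction p with
    | nil => simp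
    | cons h p ih =>
      have := h1 x _ _ h
      rw [SimpleGraph.Walk.length_cons]
      omega
  intro y
  obtain ⟨p, hp⟩ := hw _ y rfl
  refine ⟨⟨p⟩, le_antisymm ?_ ?_⟩
  · rw [← hp]
    exact SimpleGraph.dist_le p
  · obtain ⟨q, hq⟩ := SimpleGraph.Reachable.exists_walk_length_eq_dist (⟨p⟩ : G.Reachable x y)
    have h3 := hl q
    rw [(h0 x x).2 rfl, zero_add, hq] at h3
    exact h3

/-! ### The graph -/

/-- The vertices: `2 p` core vertices and `L + 1` path vertices. -/
abbrev Vt (p L : ℕ) : Type := (Fin p × Bool) ⊕ Fin (L + 1)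

/-- Adjacency. -/
def adj {p L : ℕ} : Vt p L → Vt p L → Prop
  | Sum.inl a, Sum.inl b => a.1 ≠ b.1
  | Sum.inl _, Sum.inr j => j.val = 0
  | Sum.inr j, Sum.inl _ => j.val = 0
  | Sum.inr i, Sum.inr j => i.val + 1 = j.val ∨ j.val + 1 = i.val

/-- The graph. -/
def Gr (p L : ℕ) : SimpleGraph (Vt p L) where
  Adj := adj
  symm := ⟨by
    rintro (a | i) (b | j) h
    · exact Ne.symm h
    · exact h
    · exact h
    · exact Or.symm h⟩
  loopless := ⟨by
    rintro (a | i) h
    · exact h rfl
    · rcases h with h | h <;> omega⟩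

instance (p L : ℕ) : DecidableRel (Gr p L).Adj := by
  rintro (a | i) (b | j)
  · exact inferInstanceAs (Decidable (a.1 ≠ b.1))
  · exact inferInstanceAs (Decidable (j.val = 0))
  · exact inferInstanceAs (Decidable (i.val = 0))
  · exact inferInstanceAs (Decidable (i.val + 1 = j.val ∨ j.val + 1 = i.val))

/-- The distance. -/
def D {p L : ℕ} : Vt p L → Vt p L → ℕ
  | Sum.inl a, Sum.inl b => if a = b then 0 else if a.1 = b.1 then 2 else 1
  | Sum.inl _, Sum.inr j => j.val + 1
  | Sum.inr j, Sum.inl _ => j.val + 1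
  | Sum.inr i, Sum.inr j => (i.val - j.val) + (j.val - i.val)

lemma dist_eq (p L : ℕ) : ∀ x y, (Gr p L).Reachable x y ∧ (Gr p L).dist x y = D x y := by
  apply dist_eq_of
  · rintro (a | i) (b | j)
    · simp only [D]
      by_cases h : a = b
      · simp [h]
      · simp only [h, if_false]
        constructor
        · intro h'
          split_ifs at h'
        · intro h'
          exact absurd (Sum.inl_injective h') h
    · simp [D]
    · simp [D]
    · simp only [D]
      constructor
      · intro h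
        have : i = j := Fin.ext (by omega)
        rw [this]
      · intro h
        have := Sum.inr_injective h
        rw [this]
        omega
  · rintro (a | i) (b | j) (c | k) h
    · change b.1 ≠ c.1 at h
      simp only [D]
      split_ifs with h1 h2 h3 h4 h5 h6 h7 <;> first | omega | skip
      all_goals simp_all
    · change k.val = 0 at h
      simp only [D, h]
      omega
    · change j.val = 0 at h
      simp only [D, h]
      split_ifs <;> omega
    · change j.val + 1 = k.val ∨ k.val + 1 = j.val at h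
      simp only [D]
      omega
    · simp only [D]
      omega
    · change k.val = 0 at h
      simp only [D]
      omega
    · change j.val = 0 at h
      simp only [D]
      omega
    · change j.val + 1 = k.val ∨ k.val + 1 = j.val at h
      simp only [D]
      omega
  · rintro (a | i) (b | j) hne
    · have hab : a ≠ b := fun h => hne (by rw [h])
      by_cases h : a.1 = b.1
      · exact ⟨Sum.inr 0, rfl, by simp [D, hab, h]⟩
      · exact ⟨Sum.inl a, h, by simp [D, hab, h]⟩
    · by_cases h : j.val = 0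
      · exact ⟨Sum.inl a, h, by simp [D, h]⟩
      · refine ⟨Sum.inr ⟨j.val - 1, by omega⟩, Or.inl ?_, ?_⟩
        · simp only
          omega
        · simp only [D]
          omega
    · exact ⟨Sum.inr 0, rfl, by simp [D]⟩
    · have hij : i.val ≠ j.val := fun h => hne (by rw [Fin.ext h])
      by_cases h : i.val < j.val
      · refine ⟨Sum.inr ⟨j.val - 1, by omega⟩, Or.inl ?_, ?_⟩
        · simp only
          omega
        · simp only [D]
          omega
      · refine ⟨Sum.inr ⟨j.val + 1, by omega⟩, Or.inr ?_, ?_⟩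
        · simp only
        · simp only [D]
          omega

lemma closer_eq {p L : ℕ} (u v : Vt p L) :
    closer (Gr p L) u v = (univ.filter fun w => D w u < D w v).card := by
  unfold closer
  congr 1
  ext w
  simp only [mem_filter, mem_univ, true_and]
  rw [(dist_eq p L w u).2, (dist_eq p L w v).2]

/-- Core edges. -/
lemma closer_core {p L : ℕ} (a b : Fin p × Bool) (h : a.1 ≠ b.1) :
    closer (Gr p L) (Sum.inl a) (Sum.inl b) = 2 := by
  rw [closer_eq]
  have h1 : (univ.filter fun w : Vt p L => D w (Sum.inl a) < D w (Sum.inl b)) =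
      {Sum.inl a, Sum.inl (b.1, !b.2)} := by
    ext w
    simp only [mem_filter, mem_univ, true_and, mem_insert, mem_singleton]
    obtain ⟨b1, b2⟩ := b
    rcases w with w | j
    · obtain ⟨w1, w2⟩ := w
      obtain ⟨a1, a2⟩ := a
      simp only [D, Sum.inl.injEq, Prod.mk.injEq] at h ⊢
      by_cases h1 : w1 = a1
      · subst h1
        have h2 : w1 ≠ b1 := h
        cases w2 <;> cases a2 <;> cases b2 <;> simp [h2]
      · by_cases h3 : w1 = b1
        · subst h3
          cases w2 <;> cases a2 <;> cases b2 <;> simp [h1]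
        · simp [h1, h3]
    · simp [D]
  rw [h1, Finset.card_pair]
  intro h2
  have := Sum.inl_injective h2
  rw [this] at h
  exact h rfl

lemma closer_core_apex {p L : ℕ} (a : Fin p × Bool) (j : Fin (L + 1)) (h : j.val = 0) :
    closer (Gr p L) (Sum.inl a) (Sum.inr j) ≤ 1 := by
  rw [closer_eq]
  have h1 : (univ.filter fun w : Vt p L => D w (Sum.inl a) < D w (Sum.inr j)) ⊆ {Sum.inl a} := by
    intro w
    simp only [mem_filter, mem_univ, true_and, mem_singleton]
    rcases w with w | i
    · simp only [D, Sum.inl.injEq, h]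
      by_cases h1 : w = a
      · simp [h1]
      · simp only [h1, if_false]
        split_ifs <;> omega
    · simp only [D]
      intro h2
      omega
  exact (card_le_card h1).trans (by simp)

lemma closer_path {p L : ℕ} (i j : Fin (L + 1)) (h : i.val + 1 = j.val) :
    closer (Gr p L) (Sum.inr j) (Sum.inr i) ≤ L := by
  rw [closer_eq]
  have h1 : (univ.filter fun w : Vt p L => D w (Sum.inr j) < D w (Sum.inr i)) ⊆
      (univ.erase (0 : Fin (L + 1))).map Function.Embedding.inr := by
    intro w
    simp only [mem_filter, mem_univ, true_and, mem_map, mem_erase, and_true,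
      Function.Embedding.inr_apply]
    rcases w with w | k
    · simp only [D]
      intro h2
      omega
    · simp only [D]
      intro h2
      refine ⟨k, ?_, rfl⟩
      rintro rfl
      simp only [Fin.val_zero] at h2
      omega
  refine (card_le_card h1).trans ?_
  rw [card_map, card_erase_of_mem (mem_univ _), card_univ, Fintype.card_fin]
  omega

lemma closer_le {p L : ℕ} (u v : Vt p L) : closer (Gr p L) u v ≤ 2 * p + L + 1 := by
  unfold closer
  refine (card_le_univ _).trans ?_
  simp [mul_comm]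
  omega

/-! ### Real powers -/

lemma rpow34_le (x y : ℕ) (h : x ^ 3 ≤ y ^ 4) : (x : ℝ) ^ (3 / 4 : ℝ) ≤ y := by
  have h1 : (x : ℝ) ^ (3 / 4 : ℝ) = ((x : ℝ) ^ 3) ^ (1 / 4 : ℝ) := by
    rw [← Real.rpow_natCast, ← Real.rpow_mul (by positivity)]
    norm_num
  have h2 : (y : ℝ) = ((y : ℝ) ^ 4) ^ (1 / 4 : ℝ) := by
    rw [← Real.rpow_natCast, ← Real.rpow_mul (by positivity)]
    norm_num
  rw [h1, h2]
  apply Real.rpow_le_rpow (by positivity) (by exact_mod_cast h) (by norm_num)

lemma le_rpow34 (x y : ℕ) (h : y ^ 4 ≤ x ^ 3) : (y : ℝ) ≤ (x : ℝ) ^ (3 / 4 : ℝ) := by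
  have h1 : (x : ℝ) ^ (3 / 4 : ℝ) = ((x : ℝ) ^ 3) ^ (1 / 4 : ℝ) := by
    rw [← Real.rpow_natCast, ← Real.rpow_mul (by positivity)]
    norm_num
  have h2 : (y : ℝ) = ((y : ℝ) ^ 4) ^ (1 / 4 : ℝ) := by
    rw [← Real.rpow_natCast, ← Real.rpow_mul (by positivity)]
    norm_num
  rw [h1, h2]
  apply Real.rpow_le_rpow (by positivity) (by exact_mod_cast h) (by norm_num)

lemma rpow12_le (x y : ℕ) (h : x ≤ y ^ 2) : (x : ℝ) ^ (1 / 2 : ℝ) ≤ y := by
  have h2 : (y : ℝ) = ((y : ℝ) ^ 2) ^ (1 / 2 : ℝ) := by
    rw [← Real.rpow_natCast, ← Real.rpow_mul (by positivity)]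
    norm_num
  rw [h2]
  apply Real.rpow_le_rpow (by positivity) (by exact_mod_cast h) (by norm_num)

lemma core_count (p : ℕ) (c : ℝ) :
    ∑ a : Fin p × Bool, ∑ b : Fin p × Bool, (if a.1 ≠ b.1 then c else 0) =
      4 * p * (p - 1) * c := by
  have h : ∀ a : Fin p × Bool, ∑ b : Fin p × Bool, (if a.1 ≠ b.1 then c else 0) =
      2 * (p - 1) * c := by
    intro a
    rw [Fintype.sum_prod_type]
    have h1 : ∀ x : Fin p, ∑ _y : Bool, (if a.1 ≠ x then c else 0) =
        2 * c - (if a.1 = x then 2 * c else 0) := by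
      intro x
      by_cases h : a.1 = x
      · simp [h]
      · simp [h, two_mul]
    simp only [h1, Finset.sum_sub_distrib, Finset.sum_const, Finset.card_univ, Fintype.card_fin,
      nsmul_eq_mul, Finset.sum_ite_eq, Finset.mem_univ, if_true]
    ring
  simp only [h, Finset.sum_const, Finset.card_univ, Fintype.card_prod, Fintype.card_fin,
    Fintype.card_bool, nsmul_eq_mul]
  push_cast
  ring

/-- Lower bound for the Szeged index. -/
lemma Sz_lower (p L : ℕ) (α : ℝ) : 4 * p * (p - 1) * (4 : ℝ) ^ α ≤ 2 * Sz (Gr p L) α := by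
  rw [two_mul_Sz, ← core_count, Fintype.sum_sum_type]
  have h1 : ∑ a : Fin p × Bool, ∑ b : Fin p × Bool, (if a.1 ≠ b.1 then (4 : ℝ) ^ α else 0) ≤
      ∑ a : Fin p × Bool, ∑ v : Vt p L, if (Gr p L).Adj (Sum.inl a) v then
        ((closer (Gr p L) (Sum.inl a) v : ℝ) * closer (Gr p L) v (Sum.inl a)) ^ α else 0 := by
    apply Finset.sum_le_sum
    intro a _
    rw [Fintype.sum_sum_type]
    have h2 : ∑ b : Fin p × Bool, (if a.1 ≠ b.1 then (4 : ℝ) ^ α else 0) =
        ∑ b : Fin p × Bool, if (Gr p L).Adj (Sum.inl a) (Sum.inl b) then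
        ((closer (Gr p L) (Sum.inl a) (Sum.inl b) : ℝ) *
          closer (Gr p L) (Sum.inl b) (Sum.inl a)) ^ α else 0 := by
      apply Finset.sum_congr rfl
      intro b _
      have h3 : (Gr p L).Adj (Sum.inl a) (Sum.inl b) ↔ a.1 ≠ b.1 := Iff.rfl
      by_cases h : a.1 = b.1
      · simp [h3, h]
      · simp only [h3, h, ne_eq, not_false_eq_true, if_true]
        rw [closer_core a b h, closer_core b a (Ne.symm h)]
        norm_num
    rw [h2]
    refine le_add_of_nonneg_right (Finset.sum_nonneg fun j _ => ?_)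
    split_ifs
    · positivity
    · exact le_rfl
  refine h1.trans (le_add_of_nonneg_right (Finset.sum_nonneg fun j _ => Finset.sum_nonneg
    fun k _ => ?_))
  split_ifs
  · positivity
  · exact le_rfl

/-- Upper bound for the Szeged index. -/
lemma Sz_upper (p L : ℕ) (α : ℝ) (hα : 0 ≤ α) (z₁ z₂ : ℝ)
    (h1 : ((2 * p + L + 1 : ℕ) : ℝ) ^ α ≤ z₁) (h2 : (((2 * p + L + 1) * L : ℕ) : ℝ) ^ α ≤ z₂) :
    2 * Sz (Gr p L) α ≤ 4 * p * (p - 1) * (4 : ℝ) ^ α + 4 * p * z₁ + 2 * (L + 1) * z₂ := by
  have hz1 : 0 ≤ z₁ := le_trans (by positivity) h1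
  have hz2 : 0 ≤ z₂ := le_trans (by positivity) h2
  have hct : ∀ (a : Fin p × Bool) (j : Fin (L + 1)),
      (if (Gr p L).Adj (Sum.inl a) (Sum.inr j) then
        ((closer (Gr p L) (Sum.inl a) (Sum.inr j) : ℝ) *
          closer (Gr p L) (Sum.inr j) (Sum.inl a)) ^ α else 0) ≤ if j = 0 then z₁ else 0 := by
    intro a j
    by_cases hj : j.val = 0
    · have h3 : (Gr p L).Adj (Sum.inl a) (Sum.inr j) := hj
      have h4 : j = 0 := Fin.ext hj
      rw [if_pos h3, if_pos h4]
      refine le_trans (Real.rpow_le_rpow (by positivity) ?_ hα) h1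
      have h5 := closer_core_apex (L := L) a j hj
      have h6 := closer_le (p := p) (L := L) (Sum.inr j) (Sum.inl a)
      exact_mod_cast (Nat.mul_le_mul h5 h6).trans (by rw [one_mul])
    · have h3 : ¬ (Gr p L).Adj (Sum.inl a) (Sum.inr j) := hj
      rw [if_neg h3]
      split_ifs
      · exact hz1
      · exact le_rfl
  have htt : ∀ i j : Fin (L + 1),
      (if (Gr p L).Adj (Sum.inr i) (Sum.inr j) then
        ((closer (Gr p L) (Sum.inr i) (Sum.inr j) : ℝ) *
          closer (Gr p L) (Sum.inr j) (Sum.inr i)) ^ α else 0) ≤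
        (if i.val + 1 = j.val then z₂ else 0) + (if j.val + 1 = i.val then z₂ else 0) := by
    intro i j
    by_cases hij : i.val + 1 = j.val
    · have h3 : (Gr p L).Adj (Sum.inr i) (Sum.inr j) := Or.inl hij
      have h4 : ¬ j.val + 1 = i.val := by omega
      rw [if_pos h3, if_pos hij, if_neg h4, add_zero]
      refine le_trans (Real.rpow_le_rpow (by positivity) ?_ hα) h2
      have h5 := closer_path (p := p) i j hij
      have h6 := closer_le (p := p) (L := L) (Sum.inr i) (Sum.inr j)
      exact_mod_cast Nat.mul_le_mul h6 h5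
    · by_cases hji : j.val + 1 = i.val
      · have h3 : (Gr p L).Adj (Sum.inr i) (Sum.inr j) := Or.inr hji
        rw [if_pos h3, if_pos hji, if_neg hij, zero_add]
        refine le_trans (Real.rpow_le_rpow (by positivity) ?_ hα) h2
        have h5 := closer_path (p := p) j i hji
        have h6 := closer_le (p := p) (L := L) (Sum.inr j) (Sum.inr i)
        rw [mul_comm]
        exact_mod_cast Nat.mul_le_mul h6 h5
      · have h3 : ¬ (Gr p L).Adj (Sum.inr i) (Sum.inr j) := by
          rintro (h | h)
          · exact hij h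
          · exact hji h
        rw [if_neg h3, if_neg hij, if_neg hji, add_zero]
  have hcc : ∑ a : Fin p × Bool, ∑ b : Fin p × Bool,
      (if (Gr p L).Adj (Sum.inl a) (Sum.inl b) then
        ((closer (Gr p L) (Sum.inl a) (Sum.inl b) : ℝ) *
          closer (Gr p L) (Sum.inl b) (Sum.inl a)) ^ α else 0) = 4 * p * (p - 1) * (4 : ℝ) ^ α := by
    rw [← core_count]
    apply Finset.sum_congr rfl
    intro a _
    apply Finset.sum_congr rfl
    intro b _
    have h3 : (Gr p L).Adj (Sum.inl a) (Sum.inl b) ↔ a.1 ≠ b.1 := Iff.rfl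
    by_cases h : a.1 = b.1
    · simp [h3, h]
    · simp only [h3, h, ne_eq, not_false_eq_true, if_true]
      rw [closer_core a b h, closer_core b a (Ne.symm h)]
      norm_num
  have hct' : ∑ a : Fin p × Bool, ∑ j : Fin (L + 1),
      (if (Gr p L).Adj (Sum.inl a) (Sum.inr j) then
        ((closer (Gr p L) (Sum.inl a) (Sum.inr j) : ℝ) *
          closer (Gr p L) (Sum.inr j) (Sum.inl a)) ^ α else 0) ≤ 2 * p * z₁ := by
    calc _ ≤ ∑ a : Fin p × Bool, ∑ j : Fin (L + 1), (if j = 0 then z₁ else 0) :=
          Finset.sum_le_sum fun a _ => Finset.sum_le_sum fun j _ => hct a j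
      _ = 2 * p * z₁ := by
        simp only [Finset.sum_ite_eq', Finset.mem_univ, if_true, Finset.sum_const,
          Finset.card_univ, Fintype.card_prod, Fintype.card_fin, Fintype.card_bool, nsmul_eq_mul]
        push_cast
        ring
  have htc' : ∑ j : Fin (L + 1), ∑ a : Fin p × Bool,
      (if (Gr p L).Adj (Sum.inr j) (Sum.inl a) then
        ((closer (Gr p L) (Sum.inr j) (Sum.inl a) : ℝ) *
          closer (Gr p L) (Sum.inl a) (Sum.inr j)) ^ α else 0) ≤ 2 * p * z₁ := by
    rw [Finset.sum_comm]
    refine le_trans (le_of_eq ?_) hct'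
    apply Finset.sum_congr rfl
    intro a _
    apply Finset.sum_congr rfl
    intro j _
    have h3 : (Gr p L).Adj (Sum.inr j) (Sum.inl a) ↔ (Gr p L).Adj (Sum.inl a) (Sum.inr j) :=
      SimpleGraph.adj_comm _ _ _
    simp only [h3]
    rw [mul_comm]
  have htt' : ∑ i : Fin (L + 1), ∑ j : Fin (L + 1),
      (if (Gr p L).Adj (Sum.inr i) (Sum.inr j) then
        ((closer (Gr p L) (Sum.inr i) (Sum.inr j) : ℝ) *
          closer (Gr p L) (Sum.inr j) (Sum.inr i)) ^ α else 0) ≤ 2 * (L + 1) * z₂ := by
    have h7 : ∑ i : Fin (L + 1), ∑ j : Fin (L + 1), (if i.val + 1 = j.val then z₂ else 0) ≤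
        (L + 1) * z₂ := by
      calc _ ≤ ∑ _i : Fin (L + 1), z₂ := by
            apply Finset.sum_le_sum
            intro i _
            rw [← Finset.sum_filter, Finset.sum_const, nsmul_eq_mul]
            have h8 : (univ.filter fun j : Fin (L + 1) => i.val + 1 = j.val).card ≤ 1 := by
              rw [Finset.card_le_one]
              intro a ha b hb
              rw [mem_filter] at ha hb
              exact Fin.ext (ha.2.symm.trans hb.2)
            have h9 : ((univ.filter fun j : Fin (L + 1) => i.val + 1 = j.val).card : ℝ) ≤ 1 := by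
              exact_mod_cast h8
            nlinarith
        _ = (L + 1) * z₂ := by simp
    calc _ ≤ ∑ i : Fin (L + 1), ∑ j : Fin (L + 1), ((if i.val + 1 = j.val then z₂ else 0) +
          (if j.val + 1 = i.val then z₂ else 0)) :=
          Finset.sum_le_sum fun a _ => Finset.sum_le_sum fun j _ => htt a j
      _ = ∑ i : Fin (L + 1), ∑ j : Fin (L + 1), (if i.val + 1 = j.val then z₂ else 0) +
          ∑ j : Fin (L + 1), ∑ i : Fin (L + 1), (if j.val + 1 = i.val then z₂ else 0) := by
        simp only [Finset.sum_add_distrib]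
        congr 1
        exact Finset.sum_comm
      _ ≤ _ := by linarith
  rw [two_mul_Sz, Fintype.sum_sum_type]
  simp only [Fintype.sum_sum_type, Finset.sum_add_distrib]
  linarith

/-- Upper bound for the Wiener index. -/
lemma W_upper (p L : ℕ) (y : ℝ) (h1 : ((L + 1 : ℕ) : ℝ) ^ (1 / 2 : ℝ) ≤ y) :
    2 * W (Gr p L) (1 / 2) ≤ 4 * p * (p - 1) + 4 * p + 4 * p * (L + 1) * y +
      (L + 1) * (L + 1) * y := by
  have hy : 0 ≤ y := le_trans (by positivity) h1
  have hcc : ∑ a : Fin p × Bool, ∑ b : Fin p × Bool,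
      (if (Sum.inl a : Vt p L) ≠ Sum.inl b then
        ((Gr p L).dist (Sum.inl a) (Sum.inl b) : ℝ) ^ (1 / 2 : ℝ) else 0) ≤
        4 * p * (p - 1) + 4 * p := by
    calc _ ≤ ∑ a : Fin p × Bool, ∑ b : Fin p × Bool, ((if a.1 ≠ b.1 then (1 : ℝ) else 0) +
          (if b = (a.1, !a.2) then 2 else 0)) := by
          apply Finset.sum_le_sum
          intro a _
          apply Finset.sum_le_sum
          intro b _
          rw [(dist_eq p L _ _).2]
          obtain ⟨a1, a2⟩ := a
          obtain ⟨b1, b2⟩ := b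
          by_cases h : a1 = b1
          · subst h
            by_cases h2 : a2 = b2
            · subst h2
              simp
            · have h3 : b2 = !a2 := by
                cases a2 <;> cases b2 <;> simp_all
              subst h3
              have h4 : (2 : ℝ) ^ (1 / 2 : ℝ) ≤ 2 := by
                have := rpow12_le 2 2 (by norm_num)
                exact_mod_cast this
              have h5 : (a1, a2) ≠ (a1, !a2) := by
                intro h
                have := congrArg Prod.snd h
                simp at this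
              simpa [D, h5] using h4
          · have h5 : (a1, a2) ≠ (b1, b2) := fun h' => h (congrArg Prod.fst h')
            have h6 : ¬ (b1, b2) = (a1, !a2) := fun h' => h (congrArg Prod.fst h').symm
            simp [D, h]
            split_ifs <;> norm_num
      _ = 4 * p * (p - 1) + 4 * p := by
        have h2 : ∑ a : Fin p × Bool, ∑ b : Fin p × Bool, (if b = (a.1, !a.2) then (2 : ℝ) else 0) =
            4 * p := by
          simp
          ring
        simp only [Finset.sum_add_distrib, h2, core_count]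
        ring
  have hct : ∑ a : Fin p × Bool, ∑ j : Fin (L + 1),
      (if (Sum.inl a : Vt p L) ≠ Sum.inr j then
        ((Gr p L).dist (Sum.inl a) (Sum.inr j) : ℝ) ^ (1 / 2 : ℝ) else 0) ≤
        2 * p * (L + 1) * y := by
    calc _ ≤ ∑ a : Fin p × Bool, ∑ j : Fin (L + 1), y := by
          apply Finset.sum_le_sum
          intro a _
          apply Finset.sum_le_sum
          intro j _
          rw [if_pos (by simp), (dist_eq p L _ _).2]
          refine le_trans (Real.rpow_le_rpow (by positivity) ?_ (by norm_num)) h1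
          simp only [D]
          have := j.2
          exact_mod_cast (by omega : j.val + 1 ≤ L + 1)
      _ = _ := by
        simp
        ring
  have htc : ∑ j : Fin (L + 1), ∑ a : Fin p × Bool,
      (if (Sum.inr j : Vt p L) ≠ Sum.inl a then
        ((Gr p L).dist (Sum.inr j) (Sum.inl a) : ℝ) ^ (1 / 2 : ℝ) else 0) ≤
        2 * p * (L + 1) * y := by
    rw [Finset.sum_comm]
    refine le_trans (le_of_eq ?_) hct
    apply Finset.sum_congr rfl
    intro a _
    apply Finset.sum_congr rfl
    intro j _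
    rw [if_pos (by simp), if_pos (by simp), SimpleGraph.dist_comm]
  have htt : ∑ i : Fin (L + 1), ∑ j : Fin (L + 1),
      (if (Sum.inr i : Vt p L) ≠ Sum.inr j then
        ((Gr p L).dist (Sum.inr i) (Sum.inr j) : ℝ) ^ (1 / 2 : ℝ) else 0) ≤
        (L + 1) * (L + 1) * y := by
    calc _ ≤ ∑ i : Fin (L + 1), ∑ j : Fin (L + 1), y := by
          apply Finset.sum_le_sum
          intro i _
          apply Finset.sum_le_sum
          intro j _
          split_ifs
          · rw [(dist_eq p L _ _).2]
            refine le_trans (Real.rpow_le_rpow (by positivity) ?_ (by norm_num)) h1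
            simp only [D]
            have := j.2
            have := i.2
            exact_mod_cast (by omega : i.val - j.val + (j.val - i.val) ≤ L + 1)
          · exact hy
      _ = _ := by
        simp
        ring
  rw [two_mul_W, Fintype.sum_sum_type]
  simp only [Fintype.sum_sum_type, Finset.sum_add_distrib]
  linarith

/-- Lower bound for the Wiener index. -/
lemma W_lower (p K : ℕ) (w : ℝ) (h1 : w ≤ (K : ℝ) ^ (3 / 4 : ℝ)) (hw : 0 ≤ w) :
    4 * p * (p - 1) + 4 * p * K * w ≤ 2 * W (Gr p (2 * K)) (3 / 4) := by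
  have hcc : 4 * p * (p - 1) ≤ ∑ a : Fin p × Bool, ∑ b : Fin p × Bool,
      (if (Sum.inl a : Vt p (2 * K)) ≠ Sum.inl b then
        ((Gr p (2 * K)).dist (Sum.inl a) (Sum.inl b) : ℝ) ^ (3 / 4 : ℝ) else 0) := by
    calc (4 * p * (p - 1) : ℝ)
        = ∑ a : Fin p × Bool, ∑ b : Fin p × Bool, (if a.1 ≠ b.1 then (1 : ℝ) else 0) := by
          rw [core_count, mul_one]
      _ ≤ _ := by
          apply Finset.sum_le_sum
          intro a _
          apply Finset.sum_le_sum
          intro b _
          by_cases h : a.1 = b.1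
          · rw [if_neg (not_not.2 h)]
            split_ifs
            · positivity
            · exact le_rfl
          · have hne : (Sum.inl a : Vt p (2 * K)) ≠ Sum.inl b := fun h' =>
              h (congrArg Prod.fst (Sum.inl_injective h'))
            have hne' : a ≠ b := fun h' => h (congrArg Prod.fst h')
            rw [if_pos h, if_pos hne, (dist_eq p (2 * K) _ _).2]
            simp [D, h, hne']
  have hct : 2 * p * K * w ≤ ∑ a : Fin p × Bool, ∑ j : Fin (2 * K + 1),
      (if (Sum.inl a : Vt p (2 * K)) ≠ Sum.inr j then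
        ((Gr p (2 * K)).dist (Sum.inl a) (Sum.inr j) : ℝ) ^ (3 / 4 : ℝ) else 0) := by
    have h2 : ∀ a : Fin p × Bool, K * w ≤ ∑ j : Fin (2 * K + 1),
      (if (Sum.inl a : Vt p (2 * K)) ≠ Sum.inr j then
        ((Gr p (2 * K)).dist (Sum.inl a) (Sum.inr j) : ℝ) ^ (3 / 4 : ℝ) else 0) := by
      intro a
      have h3 : ∑ j : Fin (2 * K + 1), (if K ≤ j.val then w else 0) ≤
        ∑ j : Fin (2 * K + 1), (if (Sum.inl a : Vt p (2 * K)) ≠ Sum.inr j then
        ((Gr p (2 * K)).dist (Sum.inl a) (Sum.inr j) : ℝ) ^ (3 / 4 : ℝ) else 0) := by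
        apply Finset.sum_le_sum
        intro j _
        have hne : (Sum.inl a : Vt p (2 * K)) ≠ Sum.inr j := by simp
        rw [if_pos hne, (dist_eq p (2 * K) _ _).2]
        split_ifs with h4
        · refine h1.trans (Real.rpow_le_rpow (by positivity) ?_ (by norm_num))
          simp only [D]
          exact_mod_cast (by omega : K ≤ j.val + 1)
        · positivity
      refine le_trans ?_ h3
      rw [← Finset.sum_filter, Finset.sum_const, nsmul_eq_mul]
      have h5 : K ≤ (univ.filter fun j : Fin (2 * K + 1) => K ≤ j.val).card := by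
        have h6 : ((univ : Finset (Fin K)).image fun i => (⟨K + i.val, by omega⟩ : Fin (2 * K + 1)))
            ⊆ univ.filter fun j : Fin (2 * K + 1) => K ≤ j.val := by
          intro j hj
          rw [mem_image] at hj
          obtain ⟨i, -, rfl⟩ := hj
          simp
        refine le_trans ?_ (card_le_card h6)
        rw [card_image_of_injective]
        · simp
        · intro i j hij
          have := congrArg Fin.val hij
          simp only at this
          exact Fin.ext (by omega)
      have h7 : (K : ℝ) ≤ (univ.filter fun j : Fin (2 * K + 1) => K ≤ j.val).card := by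
        exact_mod_cast h5
      exact mul_le_mul_of_nonneg_right h7 hw
    calc 2 * p * K * w = ∑ _a : Fin p × Bool, K * w := by
          simp
          ring
      _ ≤ _ := Finset.sum_le_sum fun a _ => h2 a
  have htc : 2 * p * K * w ≤ ∑ j : Fin (2 * K + 1), ∑ a : Fin p × Bool,
      (if (Sum.inr j : Vt p (2 * K)) ≠ Sum.inl a then
        ((Gr p (2 * K)).dist (Sum.inr j) (Sum.inl a) : ℝ) ^ (3 / 4 : ℝ) else 0) := by
    rw [Finset.sum_comm]
    refine le_trans hct (le_of_eq ?_)
    apply Finset.sum_congr rfl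
    intro a _
    apply Finset.sum_congr rfl
    intro j _
    rw [if_pos (by simp), if_pos (by simp), SimpleGraph.dist_comm]
  have htt : 0 ≤ ∑ i : Fin (2 * K + 1), ∑ j : Fin (2 * K + 1),
      (if (Sum.inr i : Vt p (2 * K)) ≠ Sum.inr j then
        ((Gr p (2 * K)).dist (Sum.inr i) (Sum.inr j) : ℝ) ^ (3 / 4 : ℝ) else 0) := by
    apply Finset.sum_nonneg
    intro i _
    apply Finset.sum_nonneg
    intro j _
    split_ifs
    · positivity
    · exact le_rfl
  rw [two_mul_W, Fintype.sum_sum_type]
  simp only [Fintype.sum_sum_type, Finset.sum_add_distrib]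
  linarith

/-! ### Continuity and the value at zero -/

lemma closer_pos (G : SimpleGraph V) {u v : V} (h : G.Adj u v) : 0 < closer G u v := by
  unfold closer
  rw [Finset.card_pos]
  refine ⟨u, ?_⟩
  rw [mem_filter]
  refine ⟨mem_univ _, ?_⟩
  rw [SimpleGraph.dist_self, SimpleGraph.dist_eq_one_iff_adj.2 h]
  exact one_pos

open Classical in
lemma continuous_Sz (G : SimpleGraph V) : Continuous (Sz G) := by
  unfold Sz
  apply continuous_finsetSum
  intro e he
  rw [SimpleGraph.mem_edgeFinset] at he
  induction e using Sym2.ind with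
  | _ u v =>
    rw [SimpleGraph.mem_edgeSet] at he
    change Continuous fun α => ((closer G u v : ℝ) * closer G v u) ^ α
    apply Real.continuous_const_rpow
    have h1 := closer_pos G he
    have h2 := closer_pos G he.symm
    positivity

open Classical in
lemma continuous_W {G : SimpleGraph V} (hG : G.Connected) : Continuous (W G) := by
  unfold W
  apply continuous_finsetSum
  intro e he
  induction e using Sym2.ind with
  | _ u v =>
    have hne : u ≠ v := by simpa using he
    change Continuous fun α => (G.dist u v : ℝ) ^ α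
    apply Real.continuous_const_rpow
    have h1 := hG.pos_dist_of_ne hne
    positivity

open Classical in
lemma Sz_zero_lt (G : SimpleGraph V) (hG : G ≠ ⊤) : Sz G 0 < W G 0 := by
  have h1 : Sz G 0 = (G.edgeFinset.card : ℝ) := by
    unfold Sz
    rw [Finset.card_eq_sum_ones]
    push_cast
    apply Finset.sum_congr rfl
    intro e _
    induction e using Sym2.ind with
    | _ u v =>
      change ((closer G u v : ℝ) * closer G v u) ^ (0 : ℝ) = 1
      exact Real.rpow_zero _
  have h2 : W G 0 = ((⊤ : SimpleGraph V).edgeFinset.card : ℝ) := by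
    unfold W
    rw [Finset.card_eq_sum_ones]
    push_cast
    apply Finset.sum_congr rfl
    intro e _
    induction e using Sym2.ind with
    | _ u v =>
      change (G.dist u v : ℝ) ^ (0 : ℝ) = 1
      exact Real.rpow_zero _
  rw [h1, h2]
  have h3 : G.edgeFinset ⊂ (⊤ : SimpleGraph V).edgeFinset := by
    rw [SimpleGraph.edgeFinset_ssubset_edgeFinset]
    exact lt_top_iff_ne_top.2 hG
  exact_mod_cast card_lt_card h3

lemma pos_half : W (Gr (2 ^ 26) (2 * 2 ^ 16)) (1 / 2) < Sz (Gr (2 ^ 26) (2 * 2 ^ 16)) (1 / 2) := by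
  have h1 := Sz_lower (2 ^ 26) (2 * 2 ^ 16) (1 / 2)
  have h2 := W_upper (2 ^ 26) (2 * 2 ^ 16) 363 (by
    have := rpow12_le (2 * 2 ^ 16 + 1) 363 (by norm_num)
    exact_mod_cast this)
  have h3 : (4 : ℝ) ^ (1 / 2 : ℝ) = 2 := by
    rw [show (4 : ℝ) = 2 ^ (2 : ℝ) by norm_num, ← Real.rpow_mul (by norm_num)]
    norm_num
  rw [h3] at h1
  revert h1 h2
  generalize Sz (Gr (2 ^ 26) (2 * 2 ^ 16)) (1 / 2) = s
  generalize W (Gr (2 ^ 26) (2 * 2 ^ 16)) (1 / 2) = w
  intro h1 h2
  push_cast at h1 h2
  norm_num at h1 h2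
  linarith

lemma neg_three_quarters :
    Sz (Gr (2 ^ 26) (2 * 2 ^ 16)) (3 / 4) < W (Gr (2 ^ 26) (2 * 2 ^ 16)) (3 / 4) := by
  have h1 := Sz_upper (2 ^ 26) (2 * 2 ^ 16) (3 / 4) (by norm_num) (2 ^ 21) (2 ^ 34)
    (by
      have := rpow34_le (2 * 2 ^ 26 + 2 * 2 ^ 16 + 1) (2 ^ 21) (by norm_num)
      exact_mod_cast this)
    (by
      have := rpow34_le ((2 * 2 ^ 26 + 2 * 2 ^ 16 + 1) * (2 * 2 ^ 16)) (2 ^ 34) (by norm_num)
      exact_mod_cast this)
  have h2 := W_lower (2 ^ 26) (2 ^ 16) (2 ^ 12) (by
    have := le_rpow34 (2 ^ 16) (2 ^ 12) (by norm_num)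
    exact_mod_cast this) (by norm_num)
  have h3 : (4 : ℝ) ^ (3 / 4 : ℝ) ≤ 3 := by
    have := rpow34_le 4 3 (by norm_num)
    exact_mod_cast this
  revert h1 h2 h3
  generalize Sz (Gr (2 ^ 26) (2 * 2 ^ 16)) (3 / 4) = s
  generalize W (Gr (2 ^ 26) (2 * 2 ^ 16)) (3 / 4) = w
  generalize (4 : ℝ) ^ (3 / 4 : ℝ) = t
  intro h1 h2 h3
  push_cast at h1 h2
  norm_num at h1 h2
  linarith

/-- **Main result.**  There is a connected non-complete graph for which the variable Szeged and the
variable Wiener index agree for two different exponents. -/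
theorem result : ∃ (V : Type) (_ : Fintype V) (G : SimpleGraph V), G.Connected ∧ G ≠ ⊤ ∧
    ∃ α β : ℝ, α ≠ β ∧ Sz G α = W G α ∧ Sz G β = W G β := by
  have hc : (Gr (2 ^ 26) (2 * 2 ^ 16)).Connected := by
    rw [SimpleGraph.connected_iff]
    exact ⟨fun x y => (dist_eq _ _ x y).1, ⟨Sum.inr 0⟩⟩
  have ht : Gr (2 ^ 26) (2 * 2 ^ 16) ≠ ⊤ := by
    intro h
    have h1 : (Gr (2 ^ 26) (2 * 2 ^ 16)).Adj (Sum.inl (⟨0, by norm_num⟩, false))
        (Sum.inl (⟨0, by norm_num⟩, true)) := by
      rw [h]
      simp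
    exact h1 rfl
  have hcont : Continuous fun α => Sz (Gr (2 ^ 26) (2 * 2 ^ 16)) α - W (Gr (2 ^ 26) (2 * 2 ^ 16)) α :=
    (continuous_Sz _).sub (continuous_W hc)
  have h0 := Sz_zero_lt _ ht
  have h1 := pos_half
  have h2 := neg_three_quarters
  obtain ⟨α, hα, hα'⟩ := intermediate_value_Ioo (by norm_num : (0 : ℝ) ≤ 1 / 2) hcont.continuousOn
    ⟨sub_neg.2 h0, sub_pos.2 h1⟩
  obtain ⟨β, hβ, hβ'⟩ := intermediate_value_Ioo' (by norm_num : (1 / 2 : ℝ) ≤ 3 / 4)
    hcont.continuousOn ⟨sub_neg.2 h2, sub_pos.2 h1⟩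
  refine ⟨_, inferInstance, Gr (2 ^ 26) (2 * 2 ^ 16), hc, ht, α, β, ?_, sub_eq_zero.1 hα',
    sub_eq_zero.1 hβ'⟩
  exact (hα.2.trans hβ.1).ne

end Pool.Agent.Results.MP_dd6dde_co.TwoZeros
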